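import Pool.Agent.Helper45.LinK.GoalsK
import Pool.Agent.Helper88.Lin.NOSS

/-!
# Packet NS1: tuples whose determinants are close to one
-/

open Complex Metric Set Filter Topology MeasureTheory
open scoped ContDiff ComplexConjugate ComplexOrder

namespace Pool.Agent.Helper1.LinK

open Pool.Agent.Helper95.Lin Pool.Agent.Helper16.Abund Pool.Agent.Helper92.Orb
  Pool.Agent.Helper45.LinK Pool.Agent.Helper88.Lin

/-- The linear parts along a sequence of tuples of words. -/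
theorem ladderD (hSZ : S_STEPSZ) (hA : S_STEPD) (N : ℕ) : ∃ C₁ : ℝ, 1 ≤ C₁ ∧ ∀ C : ℝ, C₁ ≤ C →
    ∀ {b : ℕ} {D : Set (Cn b)} {Γ : Type} [Group Γ]
    {g : Γ → Cn b → Cn b} {a : Γ → Cn b → ℂ}, GAct D g → (∀ γ, DifferentiableOn ℂ (a γ) D) →
    (∀ γ, ∀ z ∈ D, a γ z ≠ 0) → (∀ γ γ', ∀ z ∈ D, a (γ * γ') z = a γ (g γ' z) * a γ' z) →
    ∀ (z₀ : Cn b) (r c L : ℝ), 0 < r → 0 ≤ c → 0 ≤ L → 16 * C * c ≤ r → ball z₀ r ⊆ D →
    ∀ {p : ℕ} (G : ℕ → Fin p → Γ), (∀ m k, G (m + 1) k ∈ Words N (G m)) →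
    (∀ k, Sz g z₀ r c (G 0 k)) → (∀ k, Lz a z₀ r L (G 0 k)) →
    ∀ s : ℝ, 0 < s → ∃ m₀, ∀ m, m₀ ≤ m → ∀ k, ∀ x ∈ ball z₀ (r / 2),
      ‖a (G m k) x - 1‖ ≤ s ∧ ‖a (G m k)⁻¹ x - 1‖ ≤ s := by
  obtain ⟨C₁, hC₁, H₁⟩ := ladder hSZ N
  obtain ⟨C₂, hC₂, H₂⟩ := hA N
  refine ⟨max C₁ C₂, le_max_of_le_left hC₁, fun C hC b D Γ _ g a hD hah han ham z₀ r c L hr hc hL
    hCr hM p G hG h0 hL0 s hs => ?_⟩
  have hC₁' : C₁ ≤ C := (le_max_left _ _).trans hC
  have hC₂' : C₂ ≤ C := (le_max_right _ _).trans hC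
  have hS := H₁ C hC₁' hD z₀ r c hr hc hCr hM G hG h0
  have hC₂0 : 0 ≤ C₂ := by linarith
  have hCc : C₂ * c ≤ r / 16 := by
    have : C₂ * c ≤ C * c := mul_le_mul_of_nonneg_right hC₂' hc
    linarith
  have hCc0 : 0 ≤ C₂ * c := by positivity
  -- one step
  have step : ∀ m, (∀ k, Lz a z₀ (r * (1 / 2 + 1 / 2 ^ (m + 1))) (L / 2 ^ m) (G m k)) →
      ∀ δ ∈ Words N (G m), Lz a z₀ (r * (1 / 2 + 1 / 2 ^ (m + 1 + 1))) (L / 2 ^ (m + 1)) δ ∧
        (C₂ * c * L / 2 ^ m ≤ 1 → ∀ x ∈ ball z₀ (r / 2), ‖a δ x - 1‖ ≤ C₂ * c * L / 2 ^ m) := by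
    intro m hm δ hδ
    have hSm := hS m
    set X : ℝ := 2 ^ m with hX
    have hX1 : 1 ≤ X := one_le_pow₀ (by norm_num)
    have hX0 : 0 < X := by linarith
    have e1 : (2 : ℝ) ^ (m + 1) = 2 * X := by rw [hX]; ring
    have e2 : (2 : ℝ) ^ (m + 1 + 1) = 4 * X := by rw [hX]; ring
    have e3 : (4 : ℝ) ^ m = X ^ 2 := by
      rw [hX, ← pow_mul, mul_comm m 2, pow_mul]; norm_num
    rw [e1, e3] at hSm
    rw [e1] at hm
    rw [e2, e1]
    have hrX : r ≤ r * X := by nlinarith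
    have hρ0 : 0 < r / (4 * X) := by positivity
    have hρr : r / (4 * X) < r * (1 / 2 + 1 / (2 * X)) := by
      rw [div_lt_iff₀ (by positivity)]
      have : r * (1 / 2 + 1 / (2 * X)) * (4 * X) = r * (2 * X + 2) := by
        field_simp
        ring
      rw [this]
      nlinarith
    have hd : C₂ * (c / X ^ 2) ≤ r / (4 * X) := by
      rw [mul_div_assoc', div_le_div_iff₀ (by positivity) (by positivity)]
      nlinarith
    have hball : ball z₀ (r * (1 / 2 + 1 / (2 * X))) ⊆ D := by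
      refine (ball_subset_ball ?_).trans hM
      have : 1 / (2 * X) ≤ 1 / 2 := by
        apply one_div_le_one_div_of_le (by norm_num)
        linarith
      nlinarith
    have h1 := H₂ hD hah han ham z₀ (r * (1 / 2 + 1 / (2 * X))) (r / (4 * X)) (c / X ^ 2) (L / X) hρ0 hρr hball
      (by positivity) (by positivity) hd (G m) hSm hm δ hδ
    have hrad : r * (1 / 2 + 1 / (2 * X)) - r / (4 * X) = r * (1 / 2 + 1 / (4 * X)) := by
      field_simp
      ring
    rw [hrad] at h1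
    refine ⟨lz_mono h1.1 le_rfl ?_, fun hle x hx => ?_⟩
    · have : C₂ / (r / (4 * X)) * (c / X ^ 2) * (L / X) = (C₂ * c) * 4 * L / (r * X ^ 2) := by
        field_simp
      rw [this, div_le_div_iff₀ (by positivity) (by positivity)]
      have h3 : C₂ * c * 4 * L * (2 * X) ≤ (r / 16) * 4 * L * (2 * X) := by
        gcongr
      refine h3.trans ?_
      have h4 : X ≤ X ^ 2 := by nlinarith
      have h5 : r / 16 * 4 * L * (2 * X) = (r * L) * (X / 2) := by ring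
      have h6 : L * (r * X ^ 2) = (r * L) * X ^ 2 := by ring
      rw [h5, h6]
      apply mul_le_mul_of_nonneg_left _ (by positivity)
      linarith
    · have h7 : C₂ * (c / X ^ 2) * (L / X) ≤ C₂ * c * L / X := by
        have : C₂ * (c / X ^ 2) * (L / X) = (C₂ * c * L / X) * (1 / X ^ 2) := by
          field_simp
        rw [this]
        apply mul_le_of_le_one_right (by positivity)
        rw [div_le_one (by positivity)]
        nlinarith
      refine (h1.2 (h7.trans hle) x (ball_subset_ball ?_ hx)).trans h7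
      have : 0 ≤ r * (1 / (4 * X)) := by positivity
      nlinarith
  have hLz : ∀ m k, Lz a z₀ (r * (1 / 2 + 1 / 2 ^ (m + 1))) (L / 2 ^ m) (G m k) := by
    intro m
    induction m with
    | zero =>
      intro k
      refine lz_mono (hL0 k) (le_of_eq ?_) (le_of_eq ?_)
      · norm_num
      · norm_num
    | succ m ih => exact fun k => (step m ih _ (hG m k)).1
  -- the size tends to zero
  have htend : Tendsto (fun m : ℕ => C₂ * c * L / 2 ^ m) atTop (𝓝 0) := by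
    have h1 : Tendsto (fun m : ℕ => C₂ * c * L * (1 / 2 : ℝ) ^ m) atTop (𝓝 (C₂ * c * L * 0)) :=
      (tendsto_pow_atTop_nhds_zero_of_lt_one (by norm_num) (by norm_num)).const_mul _
    rw [mul_zero] at h1
    refine h1.congr fun m => ?_
    rw [one_div, inv_pow, div_eq_mul_inv]
  have hev : ∀ᶠ m : ℕ in atTop, C₂ * c * L / 2 ^ m ≤ min s 1 :=
    htend.eventually_le_const (lt_min hs one_pos)
  obtain ⟨m₀, hm₀⟩ := eventually_atTop.mp hev
  refine ⟨m₀ + 1, fun m hm k x hx => ?_⟩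
  obtain ⟨m', rfl⟩ : ∃ m', m = m' + 1 := ⟨m - 1, by omega⟩
  have h1 := hm₀ m' (by omega)
  have h2 := step m' (hLz m')
  have h3 := h1.trans (min_le_left _ _)
  have h4 := h1.trans (min_le_right _ _)
  exact ⟨((h2 _ (hG m' k)).2 h4 x hx).trans h3, ((h2 _ (words_inv (hG m' k))).2 h4 x hx).trans h3⟩

/-! ## The determinants -/

/-- The determinant of a holomorphic family of endomorphisms is holomorphic. -/
theorem det_holo {b k : ℕ} {D : Set (Cn b)} {f : Cn b → CE k} (hf : DifferentiableOn ℂ f D) :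
    DifferentiableOn ℂ (fun z => (f z).det) D := by
  have h1 : (fun z => (f z).det) = fun z => ∑ σ : Equiv.Perm (Fin k),
      Equiv.Perm.sign σ • ∏ i, (f z) (Pi.single i 1) (σ i) := by
    funext z
    have : (f z).det = (LinearMap.toMatrix' ((f z : Cn k →L[ℂ] Cn k) : Cn k →ₗ[ℂ] Cn k)).det := by
      rw [LinearMap.det_toMatrix']
    rw [this, Matrix.det_apply]
    rfl
  rw [h1]
  refine DifferentiableOn.fun_sum fun σ _ => DifferentiableOn.fun_const_smul ?_ _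
  have h2 : ∀ i : Fin k, DifferentiableOn ℂ (fun z => (f z) (Pi.single i 1) (σ i)) D := fun i =>
    (differentiableOn_pi.1 (hf.clm_apply (differentiableOn_const _))) (σ i)
  intro x hx
  exact (HasFDerivWithinAt.finsetProd (u := Finset.univ) fun i _ =>
    (h2 i x hx).hasFDerivWithinAt).differentiableWithinAt

theorem det_mul' {k : ℕ} (L L' : CE k) : (L * L').det = L.det * L'.det := by
  exact LinearMap.det_comp _ _

theorem det_one' {k : ℕ} : (1 : CE k).det = 1 := by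
  exact LinearMap.det_id

section

variable {b k : ℕ} {D : Set (Cn b)} {Γ : Type} [Group Γ] {g : Γ → Cn b → Cn b}
  {A : Γ → Cn b → CE k} {β : Γ → Cn b → Cn k}

theorem dmul (hD : LActK D g A β) (γ γ' : Γ) {z : Cn b} (hz : z ∈ D) :
    (A (γ * γ') z).det = (A γ (g γ' z)).det * (A γ' z).det := by
  rw [hD.a_mul γ γ' z hz, det_mul']

theorem dne (hD : LActK D g A β) (γ : Γ) {z : Cn b} (hz : z ∈ D) : (A γ z).det ≠ 0 := by
  intro h0
  have h1 := dmul hD γ⁻¹ γ hz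
  rw [inv_mul_cancel, hD.a_one z hz, det_one', h0, mul_zero] at h1
  exact one_ne_zero h1

end

/-- First stage. -/
theorem ns1 (hSZ : S_STEPSZ) (hA : S_STEPD) (hPWR : S_PWR) : S_NS1 := by
  classical
  intro b k D Γ _ g A β hD p B P hS κ ε₀ K₁ N hR z₀ hz₀
  obtain ⟨hκ, hε₀, hK₁, hK₁ε, hk2, hrec⟩ := hR
  obtain ⟨C₁, hC₁, L₁⟩ := ladder hSZ N
  obtain ⟨C₂, hC₂, L₂⟩ := ladderD hSZ hA N
  set C : ℝ := max C₁ C₂ with hC
  have hC1 : 1 ≤ C := hC₁.trans (le_max_left _ _)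
  have hC0 : 0 < C := by linarith
  have hopen : IsOpen D := hD.base.dom.isOpen
  have hκ2 : 0 < κ / 2 := by positivity
  -- the radius
  obtain ⟨r₁, hr₁, hr₁D⟩ := Metric.isOpen_iff.mp hopen z₀ hz₀
  set r : ℝ := r₁ / 4 with hr
  have hr0 : 0 < r := by positivity
  have hK : closedBall z₀ (2 * r) ⊆ D := by
    refine (closedBall_subset_ball ?_).trans hr₁D
    rw [hr]
    linarith
  have hKc : IsCompact (closedBall z₀ (2 * r)) := isCompact_closedBall _ _
  have hball : ball z₀ r ⊆ D := by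
    refine (ball_subset_closedBall.trans (closedBall_subset_closedBall ?_)).trans hK
    linarith
  refine ⟨r / 2, by positivity, ?_, fun δ ε₁ hδ hε₁ => ?_⟩
  · refine (closedBall_subset_closedBall ?_).trans hK
    linarith
  set c₁ : ℝ := r / (16 * C) with hc₁
  have hc₁0 : 0 < c₁ := by positivity
  have hc₁C : 16 * C * c₁ ≤ r := by
    rw [hc₁]
    field_simp
    exact le_rfl
  -- the first tuple
  obtain ⟨C', ρ', hC', hρ', hpw⟩ := hPWR hD.base (closedBall z₀ (2 * r)) hK hKc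
  set ε : ℝ := min (min (κ / 2) c₁) (min ρ' (c₁ / (C' + 1))) with hε
  have hε0 : 0 < ε := by
    rw [hε]
    refine lt_min (lt_min hκ2 hc₁0) (lt_min hρ' (by positivity))
  have hεκ : ε ≤ κ / 2 := (min_le_left _ _).trans (min_le_left _ _)
  have hεc : ε ≤ c₁ := (min_le_left _ _).trans (min_le_right _ _)
  have hερ : ε ≤ ρ' := (min_le_right _ _).trans (min_le_left _ _)
  have hεC : C' * ε ≤ c₁ := by
    have h1 : ε ≤ c₁ / (C' + 1) := (min_le_right _ _).trans (min_le_right _ _)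
    rw [le_div_iff₀ (by linarith)] at h1
    nlinarith
  obtain ⟨σ₀, hσ₀, happ⟩ := hS.approx (closedBall z₀ (2 * r)) hK hKc ε hε0
  set σ : ℝ := min σ₀ ε₀ / 2 with hσ
  have hσ0 : 0 < σ := by
    rw [hσ]
    have := lt_min hσ₀ hε₀
    positivity
  have hσσ : σ < σ₀ := by
    have h1 : min σ₀ ε₀ ≤ σ₀ := min_le_left _ _
    rw [hσ]
    linarith
  have hσε : σ ≤ ε₀ := by
    have h1 : min σ₀ ε₀ ≤ ε₀ := min_le_right _ _
    rw [hσ]
    linarith
  choose γ₀ hγ₀ hγ₀' using happ σ hσ0 hσσ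
  have hrec' : ∀ ε : ℝ, 0 < ε → ε ≤ ε₀ → ∀ γ : Fin p → Γ,
      (∀ k, ‖P (γ k) - 1 - ε • adB B (Pi.single k 1)‖ ≤ κ / 2 * ε) →
      ∃ γ' : Fin p → Γ, (∀ k, γ' k ∈ Words N γ) ∧
        ∀ k, ‖P (γ' k) - 1 - (K₁ * ε ^ 2) • adB B (Pi.single k 1)‖ ≤ κ / 2 * (K₁ * ε ^ 2) := by
    intro ε h1 h2 γ h3
    refine hrec Γ P hS.aut ε h1 h2 γ fun k => (h3 k).trans ?_
    nlinarith
  obtain ⟨G, e, hG0, hGw, he, he', hGP⟩ := tuples hε₀ hK₁ hK₁ε hrec' hσ0 hσε γ₀
    (fun k => (hγ₀' k).trans (mul_le_mul_of_nonneg_right hεκ hσ0.le))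
  -- sizes of the first tuple
  have hsz0 : ∀ k, Sz g z₀ r c₁ (G 0 k) := by
    intro k x hx
    have hxK : x ∈ closedBall z₀ (2 * r) := by
      rw [mem_closedBall]
      rw [mem_ball] at hx
      linarith
    rw [hG0]
    refine ⟨(hγ₀ k x hxK).trans hεc, ?_⟩
    exact ((hpw (γ₀ k) ε hερ x hxK (hγ₀ k x hxK)).1).trans hεC
  set a : Γ → Cn b → ℂ := fun γ z => (A γ z).det with ha
  have a_holo : ∀ γ, DifferentiableOn ℂ (a γ) D := fun γ => det_holo (hD.a_holo γ)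
  have a_ne : ∀ γ, ∀ z ∈ D, a γ z ≠ 0 := fun γ z hz => dne hD γ hz
  have a_mul : ∀ γ γ', ∀ z ∈ D, a (γ * γ') z = a γ (g γ' z) * a γ' z :=
    fun γ γ' z hz => dmul hD γ γ' hz
  obtain ⟨L, hL0, hL⟩ : ∃ L : ℝ, 0 ≤ L ∧ ∀ k, Lz a z₀ r L (G 0 k) := by
    have h1 : ∀ k, ∃ L : ℝ, ∀ x ∈ closedBall z₀ (2 * r),
        ‖fderiv ℂ (a (G 0 k)) x‖ / ‖a (G 0 k) x‖ ≤ L := by
      intro k
      have hc : ContinuousOn (fun x => ‖fderiv ℂ (a (G 0 k)) x‖ / ‖a (G 0 k) x‖)
          (closedBall z₀ (2 * r)) := by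
        refine ContinuousOn.div ?_ ?_ ?_
        · exact ((holo_fderiv hopen (a_holo (G 0 k))).continuousOn.mono hK).norm
        · exact ((a_holo (G 0 k)).continuousOn.mono hK).norm
        · intro x hx
          exact norm_ne_zero_iff.mpr (a_ne _ x (hK hx))
      obtain ⟨L, hL⟩ := hKc.exists_bound_of_continuousOn hc
      exact ⟨L, fun x hx => (le_abs_self _).trans (hL x hx)⟩
    choose Lk hLk using h1
    refine ⟨∑ k, |Lk k|, Finset.sum_nonneg fun k _ => abs_nonneg _, fun k x hx => ?_⟩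
    have hxK : x ∈ closedBall z₀ (2 * r) := by
      rw [mem_closedBall]
      rw [mem_ball] at hx
      linarith
    have h2 := hLk k x hxK
    have hpos : 0 < ‖a (G 0 k) x‖ := norm_pos_iff.mpr (a_ne _ x (hK hxK))
    rw [div_le_iff₀ hpos] at h2
    refine h2.trans (mul_le_mul_of_nonneg_right ?_ hpos.le)
    exact (le_abs_self _).trans
      (Finset.single_le_sum (f := fun k => |Lk k|) (fun i _ => abs_nonneg _) (Finset.mem_univ k))
  have S1 := L₁ C (le_max_left _ _) hD.base.act z₀ r c₁ hr0 hc₁0.le hc₁C hball G hGw hsz0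
  obtain ⟨m₀, hm₀⟩ := L₂ C (le_max_right _ _) hD.base.act a_holo a_ne a_mul z₀ r c₁ L hr0 hc₁0.le
    hL0 hc₁C hball G hGw hsz0 hL δ hδ
  -- a level with small sizes
  obtain ⟨m₁, hm₁, hm₁', hm₁''⟩ : ∃ m₁, m₀ ≤ m₁ ∧ c₁ / 4 ^ m₁ ≤ δ ∧ σ / 2 ^ m₁ ≤ ε₁ := by
    have htend : Tendsto (fun m : ℕ => c₁ / 4 ^ m) atTop (𝓝 0) := by
      have h1 : Tendsto (fun m : ℕ => c₁ * (1 / 4 : ℝ) ^ m) atTop (𝓝 (c₁ * 0)) :=
        (tendsto_pow_atTop_nhds_zero_of_lt_one (by norm_num) (by norm_num)).const_mul _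
      rw [mul_zero] at h1
      refine h1.congr fun m => ?_
      rw [one_div, inv_pow, div_eq_mul_inv]
    have htend' : Tendsto (fun m : ℕ => σ / 2 ^ m) atTop (𝓝 0) := by
      have h1 : Tendsto (fun m : ℕ => σ * (1 / 2 : ℝ) ^ m) atTop (𝓝 (σ * 0)) :=
        (tendsto_pow_atTop_nhds_zero_of_lt_one (by norm_num) (by norm_num)).const_mul _
      rw [mul_zero] at h1
      refine h1.congr fun m => ?_
      rw [one_div, inv_pow, div_eq_mul_inv]
    obtain ⟨m₂, hm₂⟩ := eventually_atTop.mp (htend.eventually_le_const hδ)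
    obtain ⟨m₃, hm₃⟩ := eventually_atTop.mp (htend'.eventually_le_const hε₁)
    exact ⟨max m₀ (max m₂ m₃), le_max_left _ _,
      hm₂ _ ((le_max_left _ _).trans (le_max_right _ _)),
      hm₃ _ ((le_max_right _ _).trans (le_max_right _ _))⟩
  refine ⟨e m₁, G m₁, he m₁, (he' m₁).trans hm₁'', fun l => hGP m₁ l, fun l => ?_,
    fun l x hx => hm₀ m₁ hm₁ l x hx⟩
  refine sz_mono (S1 m₁ l) ?_ hm₁'
  have : 0 ≤ r * (1 / 2 ^ (m₁ + 1)) := by positivity
  linarith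

end Pool.Agent.Helper1.LinK
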